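import Pool.Agent.Helper80.Stack.Goals

set_option autoImplicit false

/-!
# Packet MAP: a level drawing gives a plane map
-/

namespace Pool.Agent.Helper17.Stk

open Classical
open Pool.Agent.Helper80.Stk

noncomputable section

/-- The key of a dart. -/
def key {V : Type} {E : V → V → Prop} (L : LevDraw V E) (d : Dt V E) : ℕ ×ₗ ℝ :=
  if d.2 then toLex (0, L.up d.1) else toLex (1, - L.dn d.1)

lemma key_tt {V : Type} {E : V → V → Prop} (L : LevDraw V E) (e e' : Ed V E) :
    key L (e', true) < key L (e, true) ↔ L.up e' < L.up e := by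
  simp [key, Prod.Lex.toLex_lt_toLex]

lemma key_ff {V : Type} {E : V → V → Prop} (L : LevDraw V E) (e e' : Ed V E) :
    key L (e', false) < key L (e, false) ↔ L.dn e < L.dn e' := by
  simp [key, Prod.Lex.toLex_lt_toLex]

lemma key_tf {V : Type} {E : V → V → Prop} (L : LevDraw V E) (e e' : Ed V E) :
    key L (e', true) < key L (e, false) := by
  simp [key, Prod.Lex.toLex_lt_toLex]

lemma key_ft {V : Type} {E : V → V → Prop} (L : LevDraw V E) (e e' : Ed V E) :
    ¬ key L (e', false) < key L (e, true) := by
  simp [key, Prod.Lex.toLex_lt_toLex]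

lemma rev_rev {V : Type} {E : V → V → Prop} (d : Dt V E) : rev (rev d) = d := by
  simp [rev]

@[simp] lemma org_t {V : Type} {E : V → V → Prop} (e : Ed V E) : org (e, true) = e.1.1 := by
  simp [org]

@[simp] lemma org_f {V : Type} {E : V → V → Prop} (e : Ed V E) : org (e, false) = e.1.2 := by
  simp [org]

lemma key_inj {V : Type} {E : V → V → Prop} (hU : StmtUpInj) (L : LevDraw V E) (d d' : Dt V E)
    (h : org d = org d') (h2 : key L d = key L d') : d = d' := by
  obtain ⟨e, b⟩ := d
  obtain ⟨e', b'⟩ := d'
  cases b <;> cases b'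
  · simp [key] at h2 h
    have := (hU V E L).2 e e' h h2
    rw [this]
  · simp [key] at h2
  · simp [key] at h2
  · simp [key] at h2 h
    have := (hU V E L).1 e e' h h2
    rw [this]

lemma dart_simple {V : Type} {E : V → V → Prop} (L : LevDraw V E) (d d' : Dt V E)
    (h : org d = org d') (h2 : org (rev d) = org (rev d')) : d = d' := by
  obtain ⟨⟨⟨a, b⟩, he⟩, s⟩ := d
  obtain ⟨⟨⟨a', b'⟩, he'⟩, s'⟩ := d'
  cases s <;> cases s'
  · simp [org, rev] at h h2
    subst h; subst h2; rfl
  · simp [org, rev] at h h2
    subst h; subst h2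
    have h3 := L.lev_lt _ _ he
    have h4 := L.lev_lt _ _ he'
    simp only at h3 h4
    omega
  · simp [org, rev] at h h2
    subst h; subst h2
    have h3 := L.lev_lt _ _ he
    have h4 := L.lev_lt _ _ he'
    simp only at h3 h4
    omega
  · simp [org, rev] at h h2
    subst h; subst h2; rfl

lemma dart_noloop {V : Type} {E : V → V → Prop} (L : LevDraw V E) (d : Dt V E) :
    org (rev d) ≠ org d := by
  obtain ⟨⟨⟨a, b⟩, he⟩, s⟩ := d
  have h3 := L.lev_lt _ _ he
  simp only at h3
  cases s
  · simp [org, rev]
    rintro rfl
    omega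
  · simp [org, rev]
    rintro rfl
    omega

/-- The prefix sums. -/
lemma pre_t {V : Type} [Fintype V] {E : V → V → Prop} (L : LevDraw V E) (c : Dt V E → ZMod 2)
    (e : Ed V E) :
    (∑ d' : Dt V E, (if org d' = org (e, true) ∧ key L d' < key L (e, true) then c d' else 0)) =
      ∑ e' : Ed V E, (if e'.1.1 = e.1.1 ∧ L.up e' < L.up e then c (e', true) else 0) := by
  rw [Fintype.sum_prod_type]
  refine Finset.sum_congr rfl (fun e' _ => ?_)
  rw [Fintype.sum_bool]
  simp only [org_t, org_f, key_tt, key_ft, and_false, if_false, add_zero]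

lemma pre_f {V : Type} [Fintype V] {E : V → V → Prop} (hU : StmtUpInj) (L : LevDraw V E)
    (c : Dt V E → ZMod 2) (hc : ∀ d, c (rev d) = c d)
    (hev : ∀ v, (∑ d, (if org d = v then c d else 0)) = 0) (e : Ed V E) :
    (∑ d' : Dt V E, (if org d' = org (e, false) ∧ key L d' < key L (e, false) then c d' else 0)) =
      (∑ e' : Ed V E, (if e'.1.2 = e.1.2 ∧ L.dn e' < L.dn e then c (e', true) else 0))
        + c (e, true) := by
  have hcf : ∀ e' : Ed V E, c (e', false) = c (e', true) := fun e' => hc (e', true)
  have hv := hev e.1.2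
  rw [Fintype.sum_prod_type] at hv ⊢
  have h1 : c (e, true) = ∑ e' : Ed V E, (if e' = e then c (e', true) else 0) := by
    rw [Finset.sum_ite_eq']
    simp
  have h0 : ∀ A B C D : ZMod 2, D = 0 → A = B + C + D → A = B + C := by
    intro A B C D h h'
    rw [h', h, add_zero]
  refine h0 _ _ _ _ hv ?_
  rw [h1, ← Finset.sum_add_distrib, ← Finset.sum_add_distrib]
  refine Finset.sum_congr rfl (fun e' _ => ?_)
  rw [Fintype.sum_bool, Fintype.sum_bool]
  simp only [org_t, org_f, key_ff, key_tf, and_true, hcf]
  by_cases h2 : e'.1.2 = e.1.2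
  · rcases lt_trichotomy (L.dn e) (L.dn e') with h3 | h3 | h3
    · have h4 : e' ≠ e := by rintro rfl; exact lt_irrefl _ h3
      simp only [h2, h3, h4, not_lt.mpr h3.le, and_self, and_false, if_true, if_false]
      ring
    · have h4 : e' = e := (hU V E L).2 e' e h2 h3.symm
      subst h4
      simp only [lt_irrefl, and_false, if_true, if_false]
      have := z2 (c (e', true))
      linear_combination (-1 : ZMod 2) * this
    · have h4 : e' ≠ e := by rintro rfl; exact lt_irrefl _ h3
      simp only [h2, h3, h4, not_lt.mpr h3.le, and_self, and_false, if_true, if_false]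
      have := z2 (c (e', true))
      linear_combination (-1 : ZMod 2) * this
  · have h4 : e' ≠ e := by rintro rfl; exact h2 rfl
    simp only [h2, h4, false_and, if_false]
    ring

theorem pf_Map (hU : StmtUpInj) (hK : StmtKey) (hC : StmtCyc) : StmtMap := by
  intro V _ E L h1 h2
  obtain ⟨σ, s1, s2, s3⟩ := hC V (Dt V E) (ℕ ×ₗ ℝ) org (key L) (key_inj hU L)
  let ρ : Equiv.Perm (Dt V E) := ⟨rev, rev, rev_rev, rev_rev⟩
  have hφ : ∀ d, (ρ.trans σ) d = σ (rev d) := fun d => rfl
  refine ⟨⟨org, rev, ρ.trans σ, rev_rev, ?_, dart_noloop L, dart_simple L, ?_, ?_, ?_, ?_⟩,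
    fun _ => rfl, fun _ => rfl⟩
  · intro d
    rw [hφ, s1]
  · intro f hf
    refine s2 f (fun d => ?_)
    have := hf d
    rw [hφ, rev_rev] at this
    exact this
  · intro v
    obtain ⟨w, h | h⟩ := h1 v
    · exact ⟨(⟨(v, w), h⟩, true), rfl⟩
    · exact ⟨(⟨(w, v), h⟩, false), rfl⟩
  · intro d hd
    rw [hφ, hφ] at hd
    -- d1 = σ (rev d)
    have e1 : org (σ (rev d)) = org (rev d) := s1 _
    have e2 : org (rev (σ (rev d))) = org d := by
      have := s1 (rev (σ (rev d)))
      rw [hd] at this
      exact this.symm
    have e3 : σ (rev d) = rev d := by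
      refine dart_simple L _ _ e1 ?_
      rw [e2, rev_rev]
    have e4 : σ d = d := by
      rw [e3, rev_rev] at hd
      exact hd
    have uniq : ∀ x : Dt V E, σ x = x → ∀ y, org x = org y → y = x := by
      intro x hx y hy
      refine ((s2 (fun z => z = x) (fun z => ?_) x y hy).1 rfl)
      constructor
      · intro h
        exact σ.injective (h.trans hx.symm)
      · intro h
        rw [h, hx]
    -- the edge of d has another edge at one of its endpoints
    have key1 : ∀ y, org y = org d → y = d := fun y hy => uniq d e4 y hy.symm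
    have key2 : ∀ y, org y = org (rev d) → y = rev d := fun y hy => uniq (rev d) e3 y hy.symm
    obtain ⟨⟨⟨a, b⟩, he⟩, s⟩ := d
    have he' : E a b := he
    have k1 : ∀ y : Dt V E, (org y = a ∨ org y = b) → y.1 = ⟨(a, b), he⟩ := by
      intro y hy
      cases s
      · rcases hy with hy | hy
        · have := key2 y (by rw [hy]; simp [org, rev])
          rw [this]; rfl
        · have := key1 y (by rw [hy]; simp [org])
          rw [this]
      · rcases hy with hy | hy
        · have := key1 y (by rw [hy]; simp [org])
          rw [this]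
        · have := key2 y (by rw [hy]; simp [org, rev])
          rw [this]; rfl
    obtain ⟨w, ⟨h, hne⟩ | h | ⟨h, hne⟩ | h⟩ := h2 a b he'
    · have := k1 (⟨(a, w), h⟩, true) (Or.inl rfl)
      simp at this
      exact hne this
    · have := k1 (⟨(w, a), h⟩, false) (Or.inl rfl)
      simp at this
      have h5 := L.lev_lt _ _ he'
      rw [this.2] at h5
      omega
    · have := k1 (⟨(w, b), h⟩, false) (Or.inr rfl)
      simp at this
      exact hne this
    · have := k1 (⟨(b, w), h⟩, true) (Or.inr rfl)
      simp at this
      have h5 := L.lev_lt _ _ he'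
      rw [this.1] at h5
      omega
  · intro c hc hev
    have hcf : ∀ e' : Ed V E, c (e', false) = c (e', true) := fun e' => hc (e', true)
    obtain ⟨g, N, g1, g2⟩ := hK V E L (fun e => c (e, true)) (by
      intro v
      have := hev v
      rw [Fintype.sum_prod_type] at this
      refine Eq.trans ?_ this
      refine Finset.sum_congr rfl (fun e' _ => ?_)
      rw [Fintype.sum_bool]
      simp only [org_t, org_f, hcf])
    have bt : ∀ e : Ed V E, N (org ((e, true) : Dt V E)) +
        (∑ d' : Dt V E, (if org d' = org (e, true) ∧ key L d' < key L (e, true) then c d' else 0))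
          = g e := by
      intro e
      rw [pre_t, g1 e]
      simp only [org_t]
    have bf : ∀ e : Ed V E, N (org ((e, false) : Dt V E)) +
        (∑ d' : Dt V E, (if org d' = org (e, false) ∧ key L d' < key L (e, false) then c d' else 0))
          = g e + c (e, true) := by
      intro e
      rw [pre_f hU L c hc hev, g2 e]
      simp only [org_f]
      ring
    have bb : ∀ d : Dt V E, (N (org d) +
        (∑ d' : Dt V E, (if org d' = org d ∧ key L d' < key L d then c d' else 0))) +
        (N (org (rev d)) +
        (∑ d' : Dt V E, (if org d' = org (rev d) ∧ key L d' < key L (rev d) then c d' else 0)))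
          = c d := by
      rintro ⟨e, s⟩
      cases s
      · have : rev ((e, false) : Dt V E) = (e, true) := rfl
        rw [this, bf, bt, hcf]
        have := z2 (g e)
        linear_combination this
      · have : rev ((e, true) : Dt V E) = (e, false) := rfl
        rw [this, bf, bt]
        have := z2 (g e)
        linear_combination this
    refine ⟨fun d => N (org d) +
        (∑ d' : Dt V E, (if org d' = org d ∧ key L d' < key L d then c d' else 0)), ?_, bb⟩
    intro d
    have h3 := s3 c hev (rev d)
    have h4 := bb d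
    have h5 := s1 (rev d)
    show N (org (σ (rev d))) + (∑ d' : Dt V E, (if org d' = org (σ (rev d)) ∧
      key L d' < key L (σ (rev d)) then c d' else 0)) = _
    rw [h5, h3, hc d, ← h4]
    have := z2 (N (org (rev d)) +
        (∑ d' : Dt V E, (if org d' = org (rev d) ∧ key L d' < key L (rev d) then c d' else 0)))
    linear_combination this

end

end Pool.Agent.Helper17.Stk
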